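import Pool.Agent.Helper92.UQ.Goals

/-!
# MP_a41896_nt, full case: uniqueness of invariant hypersurfaces through a point, packet T3-GENP
-/

set_option autoImplicit false

open MvPolynomial

namespace Pool.Agent.Helper47.UQ.GENP

open Pool.Agent.Helper92.UQ

/-- `degreeOf j (q(X_k)) = 0` for `j ≠ k` -/
theorem degreeOf_Bq {K : Type} [Field K] {σ : Type} (q : Polynomial K) {j k : σ} (hjk : j ≠ k) :
    degreeOf j (Polynomial.aeval (X k : MvPolynomial σ K) q) = 0 := by
  refine Nat.le_zero.1 ?_
  induction q using Polynomial.induction_on' with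
  | add p q hp hq =>
    rw [map_add]
    exact (degreeOf_add_le _ _ _).trans (max_le hp hq)
  | monomial n a =>
    rw [Polynomial.aeval_monomial]
    refine (degreeOf_C_mul_le _ _ _).trans ((degreeOf_pow_le _ _ _).trans ?_)
    rw [degreeOf_X_of_ne hjk]
    simp

theorem Bq_ne_zero {K : Type} [Field K] {σ : Type} {q : Polynomial K} (hq : q ≠ 0) (k : σ) :
    Polynomial.aeval (X k : MvPolynomial σ K) q ≠ 0 := by
  intro h0
  apply hq
  have h1 := congrArg (aeval fun _ : σ => (Polynomial.X : Polynomial K)) h0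
  rw [← Polynomial.aeval_algHom_apply, aeval_X, map_zero, Polynomial.aeval_X_left_apply] at h1
  exact h1

theorem pderiv_eq_zero_of_degreeOf {K : Type} [Field K] {σ : Type} [DecidableEq σ]
    {h : MvPolynomial σ K} {i : σ} (h0 : degreeOf i h = 0) : pderiv i h = 0 := by
  refine pderiv_eq_zero_of_notMem_vars ?_
  intro hi
  rw [vars_def, Multiset.mem_toFinset, ← Multiset.count_pos, ← degreeOf_def] at hi
  omega

theorem t : Pool.Agent.Helper92.UQ.GENP := by
  intro K _ _ σ _ _ B hB n h i1 hInv hn
  have hprime : Prime h := hInv.irr.prime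
  let I : Ideal (MvPolynomial σ K) := Ideal.span {h}
  haveI hI : I.IsPrime := (Ideal.span_singleton_prime hprime.ne_zero).2 hprime
  let A := MvPolynomial σ K ⧸ I
  let F0 := FractionRing A
  let F := AlgebraicClosure F0
  let π : MvPolynomial σ K →ₐ[K] F :=
    ((IsScalarTower.toAlgHom K F0 F).comp (IsScalarTower.toAlgHom K A F0)).comp
      (Ideal.Quotient.mkₐ K I)
  let x : σ → F := fun k => π (X k)
  have hπ : ∀ p, aeval x p = π p := by
    intro p
    exact (DFunLike.congr_fun (MvPolynomial.aeval_unique π) p).symm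
  have hπa : ∀ p : MvPolynomial σ K,
      π p = algebraMap F0 F (algebraMap A F0 (Ideal.Quotient.mk I p)) := fun p => rfl
  have hker : ∀ p : MvPolynomial σ K, aeval x p = 0 ↔ h ∣ p := by
    intro p
    rw [hπ, hπa, map_eq_zero_iff _ (algebraMap F0 F).injective,
      map_eq_zero_iff _ (IsFractionRing.injective A F0), Ideal.Quotient.eq_zero_iff_mem,
      Ideal.mem_span_singleton]
  have hmem : ∀ p : MvPolynomial σ K,
      aeval x p ∈ IntermediateField.adjoin K (Set.range x) := by
    intro p
    refine IntermediateField.algebra_adjoin_le_adjoin K _ ?_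
    rw [Algebra.adjoin_range_eq_range_aeval]
    exact ⟨p, rfl⟩
  have hmem0 : ∀ z : F0, algebraMap F0 F z ∈ IntermediateField.adjoin K (Set.range x) := by
    intro z
    obtain ⟨a, b, -, rfl⟩ := IsFractionRing.div_surjective (A := A) z
    obtain ⟨p, rfl⟩ := Ideal.Quotient.mk_surjective a
    obtain ⟨q, rfl⟩ := Ideal.Quotient.mk_surjective b
    rw [map_div₀]
    refine div_mem ?_ ?_
    · rw [← hπa, ← hπ]
      exact hmem p
    · rw [← hπa, ← hπ]
      exact hmem q
  have halg : Algebra.IsAlgebraic (IntermediateField.adjoin K (Set.range x)) F := by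
    constructor
    intro y
    have hy : IsAlgebraic F0 y := Algebra.IsAlgebraic.isAlgebraic y
    obtain ⟨p, hp0, hp⟩ := hy
    let ι : F0 →+* IntermediateField.adjoin K (Set.range x) :=
      (algebraMap F0 F).codRestrict (IntermediateField.adjoin K (Set.range x)).toSubfield hmem0
    refine ⟨p.map ι, ?_, ?_⟩
    · rwa [Ne, Polynomial.map_eq_zero]
    · rw [Polynomial.aeval_def, Polynomial.eval₂_map]
      rw [Polynomial.aeval_def] at hp
      exact hp
  have hsq : ∀ k, ∃ z : F, z ^ 2 = Polynomial.aeval (x k) (B k) := fun k =>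
    IsAlgClosed.exists_pow_nat_eq _ two_pos
  choose ψ hψ using hsq
  have hBq : ∀ k, aeval x (Bq B k) = Polynomial.aeval (x k) (B k) := by
    intro k
    unfold Bq
    rw [← Polynomial.aeval_algHom_apply, aeval_X]
  let ν : σ → F := fun k => ψ k * aeval x (pderiv k h)
  have hν2 : ∀ k, ν k ^ 2 = aeval x (Bq B k * pderiv k h ^ 2) := by
    intro k
    rw [map_mul, map_pow, hBq, ← hψ k]
    simp only [ν]
    ring
  have hrel : ∀ i k, algebraMap K F (n k) * ν i ^ 2 = algebraMap K F (n i) * ν k ^ 2 := by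
    intro i k
    have h1 := (hker _).2 (hInv.dvd i k)
    rw [map_sub, mul_assoc, mul_assoc, map_mul, map_mul (aeval x) (C (n i)), aeval_C, aeval_C,
      ← hν2, ← hν2] at h1
    exact sub_eq_zero.1 h1
  obtain ⟨i0, hi0⟩ := hInv.ex
  have hν0 : ν i0 ≠ 0 := by
    intro h0
    apply hi0
    rw [← hker, ← hν2, h0]
    ring
  have hnF : ∀ {c : K}, c ≠ 0 → algebraMap K F c ≠ 0 := by
    intro c hc
    rwa [Ne, map_eq_zero_iff _ (algebraMap K F).injective]
  have hν1 : ν i1 ≠ 0 := by
    intro h0
    have h1 := hrel i0 i1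
    rw [h0] at h1
    have h2 : algebraMap K F (n i1) * ν i0 ^ 2 = 0 := by
      rw [h1]
      ring
    rcases mul_eq_zero.1 h2 with h3 | h3
    · exact hnF hn h3
    · exact hν0 (pow_eq_zero_iff two_ne_zero |>.1 h3)
  refine ⟨F, inferInstance, inferInstance, x, ψ, fun k => ν k / ν i1, ?_⟩
  refine ⟨hker, halg, hψ, ?_, div_self hν1, ?_, ?_, right_ne_zero_of_mul hν1⟩
  · intro k hk
    have h1 : h ∣ Bq B k := by
      rw [← hker, hBq, ← hψ k, hk]
      ring
    have hne : Bq B k ≠ 0 := Bq_ne_zero (hB k) k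
    obtain ⟨q, hq⟩ := h1
    have hq0 : q ≠ 0 := by
      rintro rfl
      rw [mul_zero] at hq
      exact hne hq
    have hi1 : i1 ≠ k := by
      rintro rfl
      exact hν1 (by simp only [ν]; rw [hk, zero_mul])
    have h2 : degreeOf i1 h = 0 := by
      have h3 := degreeOf_Bq (K := K) (B k) hi1
      have h4 : degreeOf i1 (h * q) = 0 := by
        rw [← hq]
        exact h3
      rw [degreeOf_mul_eq hprime.ne_zero hq0] at h4
      omega
    apply hν1
    simp only [ν]
    rw [pderiv_eq_zero_of_degreeOf h2, map_zero, mul_zero]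
  · intro k
    rw [div_pow, mul_div_assoc', div_eq_iff (pow_ne_zero 2 hν1)]
    exact hrel k i1
  · intro k
    show ν k = ν k / ν i1 * ν i1
    rw [div_mul_cancel₀ _ hν1]

end Pool.Agent.Helper47.UQ.GENP
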